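import Pool.Agent.X253.Piles

/-!
# The pile with one fixed point and one regular orbit is projective
-/

set_option autoImplicit false

namespace Pool.Agent.X253.FixedPile

open Pool.Agent.X253.Piles Pile

universe u

section

variable (C : Type u) [Group C] [TopologicalSpace C] [IsTopologicalGroup C] [CompactSpace C]
  [T2Space C] [TotallyDisconnectedSpace C]

/-- The pile `(C, {t} ⊔ C)`, with `C` acting on itself by multiplication and fixing `t`. -/
def pile : Pile.{u} where
  G := C
  T := PUnit.{u + 1} ⊕ C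
  act t g := Sum.elim (fun _ => Sum.inl PUnit.unit) (fun x => Sum.inr (x * g)) t
  act_one := by
    rintro (_ | x)
    · rfl
    · show Sum.inr (x * 1) = _
      rw [mul_one]
  act_mul := by
    rintro (_ | x) g h
    · rfl
    · show Sum.inr (x * (g * h)) = Sum.inr (x * g * h)
      rw [mul_assoc]
  continuous_act := by
    have h1 : Continuous (Sum.elim (fun p : PUnit.{u + 1} × C => (Sum.inl PUnit.unit :
        PUnit.{u + 1} ⊕ C)) (fun p : C × C => Sum.inr (p.1 * p.2))) :=
      continuous_const.sumElim (continuous_inr.comp (continuous_fst.mul continuous_snd))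
    refine (h1.comp (Homeomorph.sumProdDistrib (X := PUnit.{u + 1}) (Y := C)
      (Z := C)).continuous).congr ?_
    rintro ⟨_ | x, g⟩ <;> rfl

/-- it is projective -/
theorem projective : (pile C).Projective := by
  classical
  intro A B φ α hfG hfT hepi hrig
  have := hfG
  have := hfT
  have hfA : Finite A.G := Finite.of_surjective _ hepi.1
  -- the fixed point
  let x0 : A.T := φ.map (Sum.inl PUnit.unit)
  obtain ⟨y0, hy0⟩ := hepi.2.1 x0
  obtain ⟨y1, hy1⟩ := hepi.2.1 (φ.map (Sum.inr 1))
  have hmem : ∀ g : C, φ.hom g ∈ A.stab x0 := by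
    intro g
    exact (φ.map_act (Sum.inl PUnit.unit) g).symm
  have hbij : Set.BijOn α.hom (B.stab y0) (A.stab x0) := by
    have := hrig.1 y0
    rwa [hy0] at this
  choose ψ hψ1 hψ2 using fun a : A.stab x0 => hbij.surjOn a.2
  have hinj : ∀ a : A.stab x0, ∀ b ∈ B.stab y0, α.hom b = a → ψ a = b := fun a b hb h =>
    hbij.injOn (hψ1 a) hb ((hψ2 a).trans h.symm)
  let Ψ : A.G → B.G := fun a => if h : a ∈ A.stab x0 then ψ ⟨a, h⟩ else 1
  have hΨ : ∀ g : C, Ψ (φ.hom g) = ψ ⟨φ.hom g, hmem g⟩ := fun g => dif_pos (hmem g)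
  have hmul : ∀ g h : C, Ψ (φ.hom (g * h : C)) = Ψ (φ.hom g) * Ψ (φ.hom h) := by
    intro g h
    refine (hΨ (g * h)).trans ?_
    refine Eq.trans ?_ (congrArg₂ (· * ·) (hΨ g).symm (hΨ h).symm)
    apply hinj
    · exact (B.stab y0).mul_mem (hψ1 _) (hψ1 _)
    · rw [map_mul, hψ2, hψ2]
      exact (map_mul φ.hom g h).symm
  let γ0 : (pile C).G →* B.G := MonoidHom.mk' (fun g : C => Ψ (φ.hom g)) hmul
  have hγ0 : ∀ g : C, γ0 g = ψ ⟨φ.hom g, hmem g⟩ := hΨ
  have hγα : ∀ g : C, α.hom (γ0 g) = φ.hom g := fun g => by rw [hγ0, hψ2]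
  have hγs : ∀ g : C, γ0 g ∈ B.stab y0 := fun g => by rw [hγ0]; exact hψ1 _
  have hcont : Continuous (γ0 : C → B.G) := by
    have h1 : Continuous Ψ := continuous_of_discreteTopology
    exact h1.comp φ.continuous_hom
  refine ⟨{ hom := γ0
            map := Sum.elim (fun _ => y0) (fun g : C => B.act y1 (γ0 g))
            continuous_hom := hcont
            continuous_map := ?_
            map_act := ?_ }, hγα, ?_⟩
  · refine continuous_const.sumElim ?_
    exact B.continuous_act.comp (continuous_const.prodMk hcont)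
  · rintro (_ | x) (g : C)
    · exact (hγs g).symm
    · show B.act y1 (γ0 (x * g : C)) = B.act (B.act y1 (γ0 x)) (γ0 g)
      rw [← B.act_mul]
      exact congrArg (B.act y1) (map_mul γ0 x g)
  · rintro (_ | x)
    · exact hy0
    · show α.map (B.act y1 (γ0 x)) = φ.map (Sum.inr x)
      rw [α.map_act, hy1, hγα]
      have h1 : φ.map (Sum.inr (1 * x)) = A.act (φ.map (Sum.inr 1)) (φ.hom x) :=
        φ.map_act (Sum.inr 1) x
      rw [← h1, one_mul]

theorem nontrivial : Nontrivial (pile C).T :=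
  ⟨⟨(Sum.inl PUnit.unit : PUnit.{u + 1} ⊕ C), (Sum.inr 1 : PUnit.{u + 1} ⊕ C), fun h => by
    cases h⟩⟩

theorem stab_fixed (g : C) : g ∈ (pile C).stab (Sum.inl PUnit.unit) := rfl

end

end Pool.Agent.X253.FixedPile
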