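import Mathlib

/-!
# Profinite piles

A pile is a profinite group acting continuously from the right on a profinite space.  We define
morphisms, epimorphisms, rigid morphisms, finite rigid embedding problems and projective piles.
-/

set_option autoImplicit false

namespace Pool.Agent.X253.Piles

universe u

/-- A pile `(G, T)`: a profinite group `G` (a compact Hausdorff totally disconnected topological
group) with a continuous right action `(t, g) ↦ act t g` on a profinite space `T` (a compact
Hausdorff totally disconnected space). -/
structure Pile : Type (u + 1) where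
  /-- the group -/
  G : Type u
  /-- the space -/
  T : Type u
  [groupG : Group G]
  [topG : TopologicalSpace G]
  [topT : TopologicalSpace T]
  [topGroupG : IsTopologicalGroup G]
  [compactG : CompactSpace G]
  [t2G : T2Space G]
  [tdG : TotallyDisconnectedSpace G]
  [compactT : CompactSpace T]
  [t2T : T2Space T]
  [tdT : TotallyDisconnectedSpace T]
  /-- the right action -/
  act : T → G → T
  act_one : ∀ t, act t 1 = t
  act_mul : ∀ t g h, act t (g * h) = act (act t g) h
  continuous_act : Continuous fun p : T × G => act p.1 p.2

attribute [instance] Pile.groupG Pile.topG Pile.topT Pile.topGroupG Pile.compactG Pile.t2G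
  Pile.tdG Pile.compactT Pile.t2T Pile.tdT

namespace Pile

variable (P Q : Pile.{u})

/-- The stabiliser of a point. -/
def stab (t : P.T) : Subgroup P.G where
  carrier := {g | P.act t g = t}
  mul_mem' := by
    intro a b ha hb
    show P.act t (a * b) = t
    rw [P.act_mul, ha, hb]
  one_mem' := P.act_one t
  inv_mem' := by
    intro a ha
    show P.act t a⁻¹ = t
    have h1 : P.act (P.act t a) a⁻¹ = t := by rw [← P.act_mul, mul_inv_cancel, P.act_one]
    rwa [ha] at h1

variable {P} in
lemma mem_stab {t : P.T} {g : P.G} : g ∈ P.stab t ↔ P.act t g = t := Iff.rfl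

/-- A morphism of piles: a continuous homomorphism together with a continuous map that respect the
actions. -/
structure Hom where
  /-- the homomorphism -/
  hom : P.G →* Q.G
  /-- the map of spaces -/
  map : P.T → Q.T
  continuous_hom : Continuous hom
  continuous_map : Continuous map
  map_act : ∀ t g, map (P.act t g) = Q.act (map t) (hom g)

/-- The relation of lying in the same orbit. -/
def orbitSetoid : Setoid P.T where
  r t t' := ∃ g, P.act t g = t'
  iseqv := by
    refine ⟨fun t => ⟨1, P.act_one t⟩, ?_, ?_⟩
    · rintro t _ ⟨g, rfl⟩
      exact ⟨g⁻¹, by rw [← P.act_mul, mul_inv_cancel, P.act_one]⟩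
    · rintro t _ _ ⟨g, rfl⟩ ⟨h, rfl⟩
      exact ⟨g * h, P.act_mul t g h⟩

/-- The orbit space `T / G` with the quotient topology. -/
abbrev OrbitSpace : Type u := Quotient P.orbitSetoid

variable {P Q}

/-- The map of orbit spaces induced by a morphism. -/
def Hom.orbitMap (f : Hom P Q) : P.OrbitSpace → Q.OrbitSpace :=
  Quotient.map (sa := P.orbitSetoid) (sb := Q.orbitSetoid) f.map (by
    rintro t _ ⟨g, rfl⟩
    exact ⟨f.hom g, (f.map_act t g).symm⟩)

/-- Epimorphisms of piles: surjective on the groups and on the spaces, and every point `x` has a
preimage `y` whose stabiliser is mapped onto the stabiliser of `x`. -/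
def Hom.IsEpi (f : Hom P Q) : Prop :=
  Function.Surjective f.hom ∧ Function.Surjective f.map ∧
    ∀ x, ∃ y, f.map y = x ∧ (P.stab y).map f.hom = Q.stab x

/-- Rigid morphisms of piles: every stabiliser is mapped isomorphically onto the stabiliser of the
image, and the induced map of orbit spaces is a homeomorphism. -/
def Hom.IsRigid (f : Hom P Q) : Prop :=
  (∀ y, Set.BijOn f.hom (P.stab y) (Q.stab (f.map y))) ∧ IsHomeomorph f.orbitMap

variable (P) in
/-- A pile `(G, T)` is projective if every finite rigid embedding problem
`φ : (G, T) → (A, X)`, `α : (B, Y) → (A, X)` (`α` a rigid epimorphism, `B` and `Y` finite) has a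
solution `γ : (G, T) → (B, Y)`, `α ∘ γ = φ`. -/
def Projective : Prop :=
  ∀ (A B : Pile.{u}) (φ : Hom P A) (α : Hom B A), Finite B.G → Finite B.T → α.IsEpi → α.IsRigid →
    ∃ γ : Hom P B, (∀ g, α.hom (γ.hom g) = φ.hom g) ∧ ∀ t, α.map (γ.map t) = φ.map t

/-- The finite pile given by an action of a finite group on a finite set. -/
def ofFinite (A X : Type u) [Group A] [Finite A] [Finite X] (act : X → A → X)
    (act_one : ∀ t, act t 1 = t) (act_mul : ∀ t g h, act t (g * h) = act (act t g) h) : Pile.{u} :=
  letI tA : TopologicalSpace A := ⊥
  letI tX : TopologicalSpace X := ⊥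
  haveI dA : DiscreteTopology A := ⟨rfl⟩
  haveI dX : DiscreteTopology X := ⟨rfl⟩
  { G := A
    T := X
    groupG := inferInstance
    topG := tA
    topT := tX
    act := act
    act_one := act_one
    act_mul := act_mul
    continuous_act := continuous_of_discreteTopology }

section ofFinite

variable (A X : Type u) [Group A] [Finite A] [Finite X] (act : X → A → X)
    (act_one : ∀ t, act t 1 = t) (act_mul : ∀ t g h, act t (g * h) = act (act t g) h)

instance : DiscreteTopology (ofFinite A X act act_one act_mul).G := ⟨rfl⟩

instance : DiscreteTopology (ofFinite A X act act_one act_mul).T := ⟨rfl⟩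

end ofFinite

/-- the orbit space of a discrete space is discrete -/
lemma orbit_discrete [DiscreteTopology P.T] : DiscreteTopology P.OrbitSpace := by
  rw [discreteTopology_iff_forall_isOpen]
  intro s
  exact (isOpen_coinduced (f := Quotient.mk P.orbitSetoid)).2 (isOpen_discrete _)

lemma orbit_homeo [DiscreteTopology P.T] [DiscreteTopology Q.T] (f : Hom P Q)
    (h : Function.Bijective f.orbitMap) : IsHomeomorph f.orbitMap := by
  haveI := orbit_discrete (P := P)
  haveI := orbit_discrete (P := Q)
  exact ⟨continuous_of_discreteTopology, fun s _ => isOpen_discrete _, h⟩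

end Pile

/-- A topological group is (topologically) finitely generated. -/
def TopFG (G : Type*) [Group G] [TopologicalSpace G] : Prop :=
  ∃ S : Finset G, Dense (Subgroup.closure (S : Set G) : Set G)

end Pool.Agent.X253.Piles
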