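import Pool.Agent.X253.Piles

/-!
# Point stabilisers of projective piles are retracts
-/

set_option autoImplicit false

namespace Pool.Agent.X253.Retract

open Pool.Agent.X253.Piles Pile

universe u

variable {P : Pile.{u}}

section EmbeddingProblem

variable (N : Subgroup P.G) [N.Normal]

/-- the function `x ↦ {q | some representative g of q satisfies x g ∈ U}` -/
def F (U : Set P.T) (x : P.T) : Set (P.G ⧸ N) := {q | ∃ g : P.G, (g : P.G ⧸ N) = q ∧ P.act x g ∈ U}

/-- right action on subsets of the quotient -/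
def actX (S : Set (P.G ⧸ N)) (a : P.G ⧸ N) : Set (P.G ⧸ N) := {q | a * q ∈ S}

lemma actX_one (S : Set (P.G ⧸ N)) : actX N S 1 = S := by
  ext q; simp [actX]

lemma actX_mul (S : Set (P.G ⧸ N)) (a b : P.G ⧸ N) : actX N S (a * b) = actX N (actX N S a) b := by
  ext q; simp [actX, mul_assoc]

lemma F_act (U : Set P.T) (x : P.T) (h : P.G) :
    F N U (P.act x h) = actX N (F N U x) (h : P.G ⧸ N) := by
  ext q
  constructor
  · rintro ⟨g, rfl, hg⟩
    refine ⟨h * g, rfl, ?_⟩
    rwa [P.act_mul]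
  · rintro ⟨g, hg, hU⟩
    refine ⟨h⁻¹ * g, ?_, ?_⟩
    · rw [QuotientGroup.mk_mul, QuotientGroup.mk_inv, hg, inv_mul_cancel_left]
    · rw [← P.act_mul, mul_inv_cancel_left]; exact hU

lemma isClopen_F (hN : IsOpen (N : Set P.G)) (U : Set P.T) (hU : IsClopen U) (q : P.G ⧸ N) :
    IsClopen {x | q ∈ F N U x} := by
  obtain ⟨g0, rfl⟩ := QuotientGroup.mk_surjective q
  have hC : IsClosed {g : P.G | (g : P.G ⧸ N) = (g0 : P.G ⧸ N)} := by
    have : {g : P.G | (g : P.G ⧸ N) = (g0 : P.G ⧸ N)} = (fun g => g⁻¹ * g0) ⁻¹' (N : Set P.G) := by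
      ext g; simp [QuotientGroup.eq]
    rw [this]
    exact (Subgroup.isClosed_of_isOpen N hN).preimage (by fun_prop)
  constructor
  · have h1 : {x | (g0 : P.G ⧸ N) ∈ F N U x} =
        Prod.fst '' {p : P.T × P.G | (p.2 : P.G ⧸ N) = (g0 : P.G ⧸ N) ∧ P.act p.1 p.2 ∈ U} := by
      ext x
      constructor
      · rintro ⟨g, hg, hU⟩
        exact ⟨(x, g), ⟨hg, hU⟩, rfl⟩
      · rintro ⟨⟨x, g⟩, ⟨hg, hU⟩, rfl⟩
        exact ⟨g, hg, hU⟩
    rw [h1]
    apply IsCompact.isClosed
    apply IsCompact.image _ continuous_fst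
    apply IsClosed.isCompact
    exact (hC.preimage continuous_snd).inter (hU.1.preimage P.continuous_act)
  · have h1 : {x | (g0 : P.G ⧸ N) ∈ F N U x} =
        ⋃ g ∈ {g : P.G | (g : P.G ⧸ N) = (g0 : P.G ⧸ N)}, {x | P.act x g ∈ U} := by
      ext x
      simp only [F, Set.mem_ofPred_eq, Set.mem_iUnion, exists_prop]
    rw [h1]
    refine isOpen_biUnion fun g _ => ?_
    exact hU.2.preimage (P.continuous_act.comp (by fun_prop : Continuous fun x : P.T => (x, g)))

lemma isOpen_F (hN : IsOpen (N : Set P.G)) [Finite (P.G ⧸ N)] (U : Set P.T) (hU : IsClopen U)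
    (S : Set (P.G ⧸ N)) : IsOpen (F N U ⁻¹' {S}) := by
  have h1 : F N U ⁻¹' {S} = ⋂ q : P.G ⧸ N, {x | q ∈ F N U x ↔ q ∈ S} := by
    ext x
    simp only [Set.mem_preimage, Set.mem_singleton_iff, Set.mem_iInter, Set.mem_ofPred_eq]
    exact Set.ext_iff
  rw [h1]
  refine isOpen_iInter_of_finite fun q => ?_
  by_cases hq : q ∈ S
  · have : {x | q ∈ F N U x ↔ q ∈ S} = {x | q ∈ F N U x} := by
      ext x; simp only [Set.mem_ofPred_eq, hq, iff_true]
    rw [this]
    exact (isClopen_F N hN U hU q).2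
  · have : {x | q ∈ F N U x ↔ q ∈ S} = {x | q ∈ F N U x}ᶜ := by
      ext x; simp only [Set.mem_ofPred_eq, hq, iff_false, Set.mem_compl_iff]
    rw [this]
    exact (isClopen_F N hN U hU q).1.isOpen_compl

end EmbeddingProblem

/-- a clopen neighbourhood of `t` that meets the orbit of `t` only in points moved by elements of
`stab t ⊔ N` -/
lemma exists_clopen (t : P.T) (N : Subgroup P.G) (hN : IsOpen (N : Set P.G)) :
    ∃ U : Set P.T, IsClopen U ∧ t ∈ U ∧ ∀ g : P.G, P.act t g ∈ U → g ∈ P.stab t ⊔ N := by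
  have hH : IsOpen ((P.stab t ⊔ N : Subgroup P.G) : Set P.G) :=
    Subgroup.isOpen_mono le_sup_right hN
  have hC : IsClosed ((fun g => P.act t g) '' ((P.stab t ⊔ N : Subgroup P.G) : Set P.G)ᶜ) := by
    apply IsCompact.isClosed
    apply IsCompact.image
    · exact hH.isClosed_compl.isCompact
    · exact P.continuous_act.comp (by fun_prop : Continuous fun g : P.G => (t, g))
  have ht : t ∈ ((fun g => P.act t g) '' ((P.stab t ⊔ N : Subgroup P.G) : Set P.G)ᶜ)ᶜ := by
    rintro ⟨g, hg, hgt⟩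
    exact hg (Subgroup.mem_sup_left hgt)
  obtain ⟨U, hU1, hU2, hU3⟩ := compact_exists_isClopen_in_isOpen hC.isOpen_compl ht
  refine ⟨U, hU1, hU2, fun g hg => ?_⟩
  by_contra hng
  exact hU3 hg ⟨g, hng, rfl⟩

/-- For every open normal subgroup `N` the quotient map on the stabiliser extends to the group. -/
lemma step1 (hP : P.Projective) (t : P.T) (N : Subgroup P.G) [N.Normal]
    (hN : IsOpen (N : Set P.G)) :
    ∃ ρ : P.G →* P.G ⧸ N, IsOpen (ρ.ker : Set P.G) ∧
      (∀ g, ∃ h ∈ P.stab t, ρ g = (h : P.G ⧸ N)) ∧ ∀ h ∈ P.stab t, ρ h = (h : P.G ⧸ N) := by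
  classical
  haveI hfin : Finite (P.G ⧸ N) := Subgroup.quotient_finite_of_isOpen N hN
  obtain ⟨U, hU1, hU2, hU3⟩ := exists_clopen t N hN
  let Q := P.G ⧸ N
  let A1 : Subgroup Q := (P.stab t).map (QuotientGroup.mk' N)
  let x1 : Set Q := F N U t
  -- the stabiliser of `x1` in `Q`
  have hstab : ∀ a : Q, actX N x1 a = x1 ↔ a ∈ A1 := by
    intro a
    constructor
    · intro h
      have h1 : (1 : Q) ∈ x1 := ⟨1, rfl, by rwa [P.act_one]⟩
      have h2 : a ∈ x1 := by
        have : (1 : Q) ∈ actX N x1 a := by rw [h]; exact h1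
        have h2 : a * 1 ∈ x1 := this
        rwa [mul_one] at h2
      obtain ⟨g, rfl, hg⟩ := h2
      have h3 := hU3 g hg
      rw [Subgroup.mem_sup_of_normal_right] at h3
      obtain ⟨s, hs, n, hn, rfl⟩ := h3
      refine ⟨s, hs, ?_⟩
      rw [QuotientGroup.mk'_apply, QuotientGroup.mk_mul_of_mem _ hn]
    · rintro ⟨s, hs, rfl⟩
      rw [QuotientGroup.mk'_apply, ← F_act, show P.act t s = t from hs]
  -- the finite pile `A`
  let PA : Pile.{u} := Pile.ofFinite Q (Set Q) (actX N) (actX_one N) (actX_mul N)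
  -- the finite pile `B`
  let XO := {S : Set Q // ¬ ∃ a : Q, S = actX N x1 a}
  let actB : (Q ⊕ (XO × A1)) → (Q × A1) → (Q ⊕ (XO × A1)) := fun y b =>
    match y with
    | Sum.inl y => Sum.inl ((b.2 : Q)⁻¹ * y * b.1)
    | Sum.inr (S, c) => Sum.inr (⟨actX N S.1 b.1, by
        rintro ⟨a, ha⟩
        apply S.2
        refine ⟨a * b.1⁻¹, ?_⟩
        rw [actX_mul, ← ha, ← actX_mul, mul_inv_cancel, actX_one]⟩, c * b.2)
  have actB_inl : ∀ (y : Q) (b : Q × A1), actB (Sum.inl y) b = Sum.inl ((b.2 : Q)⁻¹ * y * b.1) :=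
    fun _ _ => rfl
  have actB_one : ∀ y, actB y 1 = y := by
    rintro (y | ⟨S, c⟩)
    · rw [actB_inl]; simp
    · show Sum.inr _ = _
      congr 1
      ext1
      · exact Subtype.ext (actX_one N _)
      · simp
  have actB_mul : ∀ y b c, actB y (b * c) = actB (actB y b) c := by
    rintro (y | ⟨S, c⟩) b b'
    · show Sum.inl _ = Sum.inl _
      congr 1
      simp [mul_assoc]
    · show Sum.inr _ = Sum.inr _
      congr 1
      ext1
      · exact Subtype.ext (actX_mul N _ _ _)
      · simp [mul_assoc]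
  let PB : Pile.{u} := Pile.ofFinite (Q × A1) (Q ⊕ (XO × A1)) actB actB_one actB_mul
  -- the morphism `φ`
  have hc1 : ∀ s : Set Q, IsOpen ((fun g : P.G => (g : Q)) ⁻¹' s) := by
    intro s
    have : (fun g : P.G => (g : Q)) ⁻¹' s = ⋃ g ∈ (fun g : P.G => (g : Q)) ⁻¹' s,
        (fun x => g⁻¹ * x) ⁻¹' (N : Set P.G) := by
      ext x
      constructor
      · intro hx
        exact Set.mem_biUnion hx (show x⁻¹ * x ∈ N by rw [inv_mul_cancel]; exact N.one_mem)
      · intro hx
        obtain ⟨g, hg, hgx⟩ := Set.mem_iUnion₂.1 hx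
        have h1 : (g : Q) = (x : Q) := QuotientGroup.eq.2 hgx
        show (x : Q) ∈ s
        rw [← h1]
        exact hg
    rw [this]
    exact isOpen_biUnion fun g _ => hN.preimage (continuous_const_mul _)
  have hc2 : ∀ s : Set (Set Q), IsOpen (F N U ⁻¹' s) := by
    intro s
    have : F N U ⁻¹' s = ⋃ S ∈ s, F N U ⁻¹' {S} := by
      ext x; simp
    rw [this]
    exact isOpen_biUnion fun S _ => isOpen_F N hN U hU1 S
  let φ : Hom P PA :=
    { hom := QuotientGroup.mk' N
      map := F N U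
      continuous_hom := continuous_def.2 fun s _ => hc1 s
      continuous_map := continuous_def.2 fun s _ => hc2 s
      map_act := fun x g => F_act N U x g }
  let αmap : (Q ⊕ (XO × A1)) → Set Q := fun y =>
    match y with
    | Sum.inl y => actX N x1 y
    | Sum.inr (S, _) => S.1
  have αmap_inl : ∀ y : Q, αmap (Sum.inl y) = actX N x1 y := fun _ => rfl
  have αmap_inr : ∀ (S : XO) (c : A1), αmap (Sum.inr (S, c)) = S.1 := fun _ _ => rfl
  have αact : ∀ y b, αmap (actB y b) = actX N (αmap y) b.1 := by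
    rintro (y | ⟨S, c⟩) b
    · rw [actB_inl, αmap_inl, αmap_inl, mul_assoc, actX_mul,
        (hstab _).2 (A1.inv_mem b.2.2), actX_mul]
    · rfl
  let α : Hom PB PA :=
    { hom := MonoidHom.fst Q A1
      map := αmap
      continuous_hom := continuous_of_discreteTopology (α := PB.G)
      continuous_map := continuous_of_discreteTopology (α := PB.T)
      map_act := αact }
  have hmem : ∀ (y : PB.T) (b : Q × A1), b ∈ PB.stab y ↔ actB y b = y := fun _ _ => Iff.rfl
  have hmemA : ∀ (S : Set Q) (a : Q), a ∈ PA.stab S ↔ actX N S a = S := fun _ _ => Iff.rfl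
  -- stabilisers are mapped bijectively
  have hbij : ∀ y, Set.BijOn α.hom (PB.stab y) (PA.stab (α.map y)) := by
    intro y
    refine ⟨?_, ?_, ?_⟩
    · intro b hb
      exact (αact y b).symm.trans (congrArg αmap (show actB y b = y from hb))
    · rintro ⟨a, c⟩ hb ⟨a', c'⟩ hb' haa
      have haa : a = a' := haa
      subst haa
      rcases y with y | ⟨S, d⟩
      · have h1 : (c : Q)⁻¹ * y * a = y := Sum.inl.inj hb
        have h2 : (c' : Q)⁻¹ * y * a = y := Sum.inl.inj hb'
        have h3 : (c : Q)⁻¹ = (c' : Q)⁻¹ := by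
          have := h1.trans h2.symm
          exact mul_right_cancel (mul_right_cancel this)
        have h4 : c = c' := Subtype.ext (inv_injective h3)
        rw [h4]
      · have h1 : d * c = d := (Prod.ext_iff.1 (Sum.inr.inj hb)).2
        have h2 : d * c' = d := (Prod.ext_iff.1 (Sum.inr.inj hb')).2
        have h3 : c = c' := mul_left_cancel (h1.trans h2.symm)
        rw [h3]
    · rintro (a : Q) ha
      rcases y with y | ⟨S, d⟩
      · have ha : actX N (actX N x1 y) a = actX N x1 y := ha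
        have h1 : y * a * y⁻¹ ∈ A1 := by
          rw [← hstab, actX_mul, actX_mul, ha, ← actX_mul, mul_inv_cancel, actX_one]
        refine ⟨(a, ⟨y * a * y⁻¹, h1⟩), ?_, rfl⟩
        show Sum.inl _ = _
        congr 1
        show (y * a * y⁻¹)⁻¹ * y * a = y
        group
      · have ha : actX N S.1 a = S.1 := ha
        refine ⟨(a, 1), ?_, rfl⟩
        show Sum.inr _ = _
        congr 1
        ext1
        · exact Subtype.ext ha
        · simp
  have hsurj : Function.Surjective α.map := by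
    intro S
    by_cases hS : ∃ a : Q, S = actX N x1 a
    · obtain ⟨a, rfl⟩ := hS
      exact ⟨Sum.inl a, rfl⟩
    · exact ⟨Sum.inr (⟨S, hS⟩, 1), rfl⟩
  have hepi : α.IsEpi := by
    refine ⟨fun a => ⟨(a, 1), rfl⟩, hsurj, fun x => ?_⟩
    obtain ⟨y, rfl⟩ := hsurj x
    refine ⟨y, rfl, ?_⟩
    apply SetLike.coe_injective
    rw [Subgroup.coe_map]
    exact (hbij y).image_eq
  have horb : Function.Bijective α.orbitMap := by
    constructor
    · intro a b
      refine Quotient.inductionOn₂ a b ?_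
      intro y y' h
      obtain ⟨a, ha⟩ : ∃ a : Q, actX N (αmap y) a = αmap y' := Quotient.exact h
      apply Quotient.sound
      show ∃ b : Q × A1, actB y b = y'
      rcases y with y | ⟨S, c⟩
      · rcases y' with y' | ⟨S', c'⟩
        · refine ⟨(y⁻¹ * y', 1), ?_⟩
          rw [actB_inl]; simp
        · exfalso
          apply S'.2
          refine ⟨y * a, ?_⟩
          rw [actX_mul]
          exact ha.symm
      · rcases y' with y' | ⟨S', c'⟩
        · exfalso
          apply S.2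
          refine ⟨y' * a⁻¹, ?_⟩
          rw [actX_mul]
          have h1 : actX N S.1 a = actX N x1 y' := ha
          rw [← h1, ← actX_mul, mul_inv_cancel, actX_one]
        · refine ⟨(a, c⁻¹ * c'), ?_⟩
          show Sum.inr _ = _
          congr 1
          ext1
          · exact Subtype.ext ha
          · simp
    · intro a
      refine Quotient.inductionOn a ?_
      intro x
      obtain ⟨y, rfl⟩ := hsurj x
      exact ⟨Quotient.mk _ y, rfl⟩
  have hrig : α.IsRigid := ⟨hbij, Pile.orbit_homeo α horb⟩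
  have hfB : Finite PB.G := inferInstanceAs (Finite (Q × A1))
  have hfY : Finite PB.T := inferInstanceAs (Finite (Q ⊕ (XO × A1)))
  obtain ⟨γ, hγ1, hγ2⟩ := hP PA PB φ α hfB hfY hepi hrig
  -- the image of `t`
  obtain ⟨a, ha, haA⟩ : ∃ a : Q, γ.map t = Sum.inl a ∧ a ∈ A1 := by
    have h1 : αmap (γ.map t) = x1 := hγ2 t
    rcases hy : γ.map t with y | ⟨S, c⟩
    · rw [hy] at h1
      exact ⟨y, rfl, (hstab y).1 h1⟩
    · exfalso
      rw [hy] at h1
      exact S.2 ⟨1, by rw [actX_one]; exact h1⟩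
  let snd : P.G →* A1 := (MonoidHom.snd Q A1).comp γ.hom
  let ρ : P.G →* Q := ((MulAut.conj a⁻¹).toMonoidHom.comp A1.subtype).comp snd
  have hρ : ∀ g, ρ g = a⁻¹ * (snd g : Q) * a := by
    intro g
    show a⁻¹ * (snd g : Q) * (a⁻¹)⁻¹ = _
    rw [inv_inv]
  refine ⟨ρ, ?_, ?_, ?_⟩
  · have h1 : IsOpen ((γ.hom : P.G → Q × A1) ⁻¹' {1}) :=
      γ.continuous_hom.isOpen_preimage _ (isOpen_discrete (α := PB.G) _)
    refine Subgroup.isOpen_mono (H₁ := γ.hom.ker) ?_ h1
    intro g hg
    have h2 : γ.hom g = 1 := hg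
    show ρ g = 1
    rw [hρ]
    have h3 : snd g = 1 := by
      show (γ.hom g).2 = 1
      rw [h2]; rfl
    rw [h3]; simp
  · intro g
    have h1 : ρ g ∈ A1 := by
      rw [hρ]
      exact A1.mul_mem (A1.mul_mem (A1.inv_mem haA) (snd g).2) haA
    obtain ⟨h, hh, hh'⟩ := h1
    exact ⟨h, hh, hh'.symm⟩
  · intro h hh
    have h1 : PB.act (γ.map t) (γ.hom h) = γ.map t := by
      rw [← γ.map_act, show P.act t h = t from hh]
    rw [ha] at h1
    have h2 : (snd h : Q)⁻¹ * a * (γ.hom h).1 = a := Sum.inl.inj h1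
    have h3 : (γ.hom h).1 = (h : Q) := hγ1 h
    rw [hρ, ← h3]
    calc a⁻¹ * (snd h : Q) * a = a⁻¹ * (snd h : Q) * ((snd h : Q)⁻¹ * a * (γ.hom h).1) := by rw [h2]
      _ = (γ.hom h).1 := by group

/-- Only finitely many continuous homomorphisms from a finitely generated topological group to a
finite group. -/
lemma finite_homs {G Q : Type*} [Group G] [TopologicalSpace G] [IsTopologicalGroup G] [Group Q]
    [Finite Q] (hG : TopFG G) : {ρ : G →* Q | IsOpen (ρ.ker : Set G)}.Finite := by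
  obtain ⟨S, hS⟩ := hG
  apply Set.Finite.of_injOn (f := fun ρ : G →* Q => fun s : S => ρ s) (t := Set.univ)
  · exact fun _ _ => Set.mem_univ _
  · intro ρ hρ σ hσ h
    let K : Subgroup G := ρ.eqLocus σ
    have hK : IsOpen (K : Set G) := by
      refine Subgroup.isOpen_mono (H₁ := ρ.ker ⊓ σ.ker) ?_ (hρ.inter hσ)
      rintro g ⟨h1, h2⟩
      show ρ g = σ g
      rw [show ρ g = 1 from h1, show σ g = 1 from h2]
    have h1 : Subgroup.closure (S : Set G) ≤ K := by
      rw [Subgroup.closure_le]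
      intro s hs
      exact congrFun h ⟨s, hs⟩
    have h2 : (K : Set G) = Set.univ := by
      have h3 : Dense (K : Set G) := hS.mono h1
      have h4 : IsClosed (K : Set G) := Subgroup.isClosed_of_isOpen K hK
      rw [← h4.closure_eq, h3.closure_eq]
    ext g
    have : g ∈ (K : Set G) := by rw [h2]; trivial
    exact this
  · exact Set.toFinite _

/-- the common kernel of the continuous homomorphisms to `G ⧸ N` -/
def M (P : Pile.{u}) (N : Subgroup P.G) [N.Normal] : Subgroup P.G :=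
  ⨅ ρ ∈ {ρ : P.G →* P.G ⧸ N | IsOpen (ρ.ker : Set P.G)}, ρ.ker

lemma M_open (hG : TopFG P.G) (N : Subgroup P.G) [N.Normal] (hN : IsOpen (N : Set P.G)) :
    IsOpen (M P N : Set P.G) := by
  haveI hfin : Finite (P.G ⧸ N) := Subgroup.quotient_finite_of_isOpen N hN
  have h := finite_homs (Q := P.G ⧸ N) hG
  have : (M P N : Set P.G) = ⋂ ρ ∈ {ρ : P.G →* P.G ⧸ N | IsOpen (ρ.ker : Set P.G)},
      (ρ.ker : Set P.G) := by
    simp [M, Subgroup.coe_iInf]
  rw [this]
  exact h.isOpen_biInter fun ρ hρ => hρ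

/-- conditions modulo `N` for a retraction -/
def K (P : Pile.{u}) (t : P.T) (N : Subgroup P.G) [N.Normal] : Set (P.G → P.G) :=
  {f | (∀ g h, ((f (g * h) : P.G) : P.G ⧸ N) = (f g : P.G ⧸ N) * (f h : P.G ⧸ N)) ∧
    (∀ g, (f g : P.G ⧸ N) ∈ (P.stab t).map (QuotientGroup.mk' N)) ∧
    (∀ h ∈ P.stab t, (f h : P.G ⧸ N) = (h : P.G ⧸ N)) ∧
    ∀ m ∈ M P N, (f m : P.G ⧸ N) = 1}

lemma K_closed (t : P.T) (N : Subgroup P.G) [N.Normal] (hN : IsOpen (N : Set P.G)) :
    IsClosed (K P t N) := by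
  haveI : DiscreteTopology (P.G ⧸ N) := QuotientGroup.discreteTopology hN
  have hc : ∀ g : P.G, Continuous fun f : P.G → P.G => (f g : P.G ⧸ N) := fun g =>
    QuotientGroup.continuous_mk.comp (continuous_apply g)
  have : K P t N =
    ({f | ∀ g h, ((f (g * h) : P.G) : P.G ⧸ N) = (f g : P.G ⧸ N) * (f h : P.G ⧸ N)} ∩
    ({f | ∀ g, (f g : P.G ⧸ N) ∈ (P.stab t).map (QuotientGroup.mk' N)} ∩
    ({f | ∀ h ∈ P.stab t, (f h : P.G ⧸ N) = (h : P.G ⧸ N)} ∩
    {f | ∀ m ∈ M P N, (f m : P.G ⧸ N) = 1}))) := by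
    ext f; simp only [K, Set.mem_inter_iff, Set.mem_ofPred_eq]
  rw [this]
  refine IsClosed.inter ?_ (IsClosed.inter ?_ (IsClosed.inter ?_ ?_))
  · simp only [Set.ofPred_forall]
    refine isClosed_iInter fun g => isClosed_iInter fun h => ?_
    exact isClosed_eq (hc _) ((hc g).mul (hc h))
  · simp only [Set.ofPred_forall]
    refine isClosed_iInter fun g => ?_
    exact (isClosed_discrete (((P.stab t).map (QuotientGroup.mk' N) : Subgroup (P.G ⧸ N)) :
      Set (P.G ⧸ N))).preimage (hc g)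
  · simp only [Set.ofPred_forall]
    refine isClosed_iInter fun g => isClosed_iInter fun _ => ?_
    exact isClosed_eq (hc _) continuous_const
  · simp only [Set.ofPred_forall]
    refine isClosed_iInter fun g => isClosed_iInter fun _ => ?_
    exact isClosed_eq (hc _) continuous_const

lemma K_nonempty (hP : P.Projective) (t : P.T) (N : Subgroup P.G) [N.Normal]
    (hN : IsOpen (N : Set P.G)) : (K P t N).Nonempty := by
  obtain ⟨ρ, h1, h2, h3⟩ := step1 hP t N hN
  refine ⟨fun g => (ρ g).out, ?_, ?_, ?_, ?_⟩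
  · intro g h
    simp only [QuotientGroup.out_eq']
    exact map_mul ρ g h
  · intro g
    simp only [QuotientGroup.out_eq']
    obtain ⟨h, hh, e⟩ := h2 g
    exact ⟨h, hh, e.symm⟩
  · intro h hh
    simp only [QuotientGroup.out_eq']
    exact h3 h hh
  · intro m hm
    simp only [QuotientGroup.out_eq']
    have : m ∈ ρ.ker := by
      simp only [M, Subgroup.mem_iInf] at hm
      exact hm ρ h1
    exact this

lemma K_mono (hG : TopFG P.G) (t : P.T) (N N' : Subgroup P.G) [N.Normal] [N'.Normal]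
    (hN' : IsOpen (N' : Set P.G)) (hle : N' ≤ N) : K P t N' ⊆ K P t N := by
  rintro f ⟨h1, h2, h3, h4⟩
  let π : P.G ⧸ N' →* P.G ⧸ N := QuotientGroup.map N' N (MonoidHom.id _) hle
  have hπ : ∀ g : P.G, π (g : P.G ⧸ N') = (g : P.G ⧸ N) := fun g => rfl
  have h1' : ∀ g h, ((f (g * h) : P.G) : P.G ⧸ N) = (f g : P.G ⧸ N) * (f h : P.G ⧸ N) := by
    intro g h
    rw [← hπ, h1, map_mul, hπ, hπ]
  refine ⟨h1', ?_, ?_, ?_⟩
  · intro g
    obtain ⟨s, hs, e⟩ := h2 g
    refine ⟨s, hs, ?_⟩
    rw [← hπ (f g), ← e]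
    rfl
  · intro h hh
    rw [← hπ, h3 h hh, hπ]
  · intro m hm
    let ρ : P.G →* P.G ⧸ N := MonoidHom.mk' (fun g => (f g : P.G ⧸ N)) h1'
    have hρ : IsOpen (ρ.ker : Set P.G) := by
      refine Subgroup.isOpen_mono (H₁ := M P N') ?_ (M_open hG N' hN')
      intro g hg
      show (f g : P.G ⧸ N) = 1
      rw [← hπ, h4 g hg, map_one]
    simp only [M, Subgroup.mem_iInf] at hm
    exact hm ρ hρ

/-- Every point stabiliser of a projective pile `(G, T)` with `G` finitely generated is a retract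
of `G`. -/
theorem retract (hP : P.Projective) (hG : TopFG P.G) (t : P.T) :
    ∃ r : P.G →* P.stab t, Continuous r ∧ ∀ h : P.stab t, r (h : P.G) = h := by
  have hnonempty : Nonempty (OpenNormalSubgroup P.G) := by
    obtain ⟨N, -⟩ := ProfiniteGrp.exist_openNormalSubgroup_sub_open_nhds_of_one
      (isOpen_univ (X := P.G)) (Set.mem_univ _)
    exact ⟨N⟩
  have hne : (⋂ N : OpenNormalSubgroup P.G, K P t N.toSubgroup).Nonempty := by
    refine IsCompact.nonempty_iInter_of_directed_nonempty_isCompact_isClosed _ ?_ ?_ ?_ ?_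
    · intro N N'
      refine ⟨N ⊓ N', ?_, ?_⟩
      · exact K_mono hG t _ _ (N ⊓ N').isOpen inf_le_left
      · exact K_mono hG t _ _ (N ⊓ N').isOpen inf_le_right
    · exact fun N => K_nonempty hP t _ N.isOpen
    · exact fun N => (K_closed t _ N.isOpen).isCompact
    · exact fun N => K_closed t _ N.isOpen
  obtain ⟨f, hf⟩ := hne
  rw [Set.mem_iInter] at hf
  have sep : ∀ x : P.G, (∀ N : OpenNormalSubgroup P.G, x ∈ N.toSubgroup) → x = 1 := by
    intro x hx
    by_contra hne
    obtain ⟨N, hN⟩ := ProfiniteGrp.exist_openNormalSubgroup_sub_open_nhds_of_one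
      (isOpen_compl_singleton (x := x)) (by simpa using Ne.symm hne)
    exact hN (hx N) rfl
  have hmul : ∀ g h, f (g * h) = f g * f h := by
    intro g h
    have : (f (g * h))⁻¹ * (f g * f h) = 1 := sep _ fun N =>
      QuotientGroup.eq.1 ((hf N).1 g h)
    exact (inv_mul_eq_one.1 this)
  have hclosed : IsClosed (P.stab t : Set P.G) := by
    have : (P.stab t : Set P.G) = (fun g => P.act t g) ⁻¹' {t} := rfl
    rw [this]
    exact isClosed_singleton.preimage
      (P.continuous_act.comp (by fun_prop : Continuous fun g : P.G => (t, g)))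
  have hmem : ∀ g, f g ∈ P.stab t := by
    intro g
    by_contra hng
    have h1 : IsOpen ((fun x => f g * x) ⁻¹' (P.stab t : Set P.G)ᶜ) :=
      hclosed.isOpen_compl.preimage (by fun_prop)
    obtain ⟨N, hN⟩ := ProfiniteGrp.exist_openNormalSubgroup_sub_open_nhds_of_one h1
      (by simpa using hng)
    obtain ⟨s, hs, e⟩ := (hf N).2.1 g
    have h2 : (f g)⁻¹ * s ∈ N.toSubgroup := QuotientGroup.eq.1 e.symm
    have h3 := hN h2
    apply h3
    simpa using hs
  have hid : ∀ h ∈ P.stab t, f h = h := by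
    intro h hh
    have : (f h)⁻¹ * h = 1 := sep _ fun N => QuotientGroup.eq.1 ((hf N).2.2.1 h hh)
    exact (inv_mul_eq_one.1 this)
  let r0 : P.G →* P.G := MonoidHom.mk' f hmul
  have hcont : Continuous r0 := by
    refine continuous_of_continuousAt_one r0 ?_
    rw [ContinuousAt, map_one, Filter.tendsto_def]
    intro s hs
    obtain ⟨O, hO1, hO2, hO3⟩ := mem_nhds_iff.1 hs
    obtain ⟨N, hN⟩ := ProfiniteGrp.exist_openNormalSubgroup_sub_open_nhds_of_one hO2 hO3
    have h1 : (M P N.toSubgroup : Set P.G) ∈ nhds (1 : P.G) :=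
      (M_open hG N.toSubgroup N.isOpen).mem_nhds (Subgroup.one_mem _)
    refine Filter.mem_of_superset h1 fun m hm => hO1 (hN ?_)
    have h2 := (hf N).2.2.2 m hm
    exact (QuotientGroup.eq_one_iff _).1 h2
  refine ⟨r0.codRestrict (P.stab t) hmem, ?_, ?_⟩
  · exact hcont.subtype_mk hmem
  · intro h
    exact Subtype.ext (hid h h.2)

end Pool.Agent.X253.Retract
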